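import Pool.Agent.H817R5.EP.Stubs

/-!
# PER: sums of periodic functions over intervals

Prover: helper676.
-/

set_option autoImplicit false

open Finset

namespace Pool.Agent.H676R5.EP

open Pool.Agent.H817R5.EP

theorem per_add {Q : ℕ} {F : ℕ → ℝ} (h : ∀ n, F (n % Q) = F n) (n : ℕ) : F (n + Q) = F n := by
  rw [← h (n + Q), Nat.add_mod_right, h]

theorem per_mul {Q : ℕ} {F : ℕ → ℝ} (h : ∀ n, F (n % Q) = F n) (k n : ℕ) :
    F (Q * k + n) = F n := by
  rw [← h (Q * k + n), Nat.mul_add_mod, h]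

theorem per_shift {Q : ℕ} {F : ℕ → ℝ} (h : ∀ n, F (n % Q) = F n) (r : ℕ) :
    ∑ y ∈ range Q, F (y + r) = ∑ y ∈ range Q, F y := by
  induction r with
  | zero => rfl
  | succ r ih =>
    have h1 := Finset.sum_range_succ (fun y => F (y + r)) Q
    have h2 := Finset.sum_range_succ' (fun y => F (y + r)) Q
    simp only [zero_add] at h2
    have h3 : F (Q + r) = F r := by rw [add_comm, per_add h]
    have h4 : ∑ y ∈ range Q, F (y + (r + 1)) = ∑ y ∈ range Q, F (y + 1 + r) := by
      refine Finset.sum_congr rfl fun y _ => ?_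
      congr 1
      omega
    rw [h4]
    linarith

theorem per_full {Q : ℕ} {F : ℕ → ℝ} (h : ∀ n, F (n % Q) = F n) (X0 k : ℕ) :
    ∑ y ∈ range (Q * k), F (y + X0) = k * ∑ y ∈ range Q, F y := by
  induction k with
  | zero => simp
  | succ k ih =>
    rw [Nat.mul_succ, Finset.sum_range_add, ih]
    have h1 : ∑ x ∈ range Q, F (Q * k + x + X0) = ∑ y ∈ range Q, F y := by
      rw [← per_shift h X0]
      refine Finset.sum_congr rfl fun y _ => ?_
      rw [add_assoc, per_mul h]
    rw [h1]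
    push_cast
    ring

theorem per : St_PER := by
  intro Q X0 X F hQ h
  have hQ' : (0 : ℝ) < Q := by exact_mod_cast hQ
  have habs : ∀ n, (fun n => |F n|) (n % Q) = (fun n => |F n|) n := fun n => by
    simp only [h n]
  -- the decomposition
  have hX := Nat.div_add_mod X Q
  have hR := Nat.mod_lt X hQ
  set k := X / Q with hk
  set R := X % Q with hRdef
  have hR' : (R : ℝ) < Q := by exact_mod_cast hR
  have hR0 : (0 : ℝ) ≤ R := Nat.cast_nonneg _
  have hsum : ∑ y ∈ Ico X0 (X0 + X), F y - (X : ℝ) / Q * ∑ y ∈ range Q, F y =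
      ∑ y ∈ range R, F (y + X0) - (R : ℝ) / Q * ∑ y ∈ range Q, F y := by
    rw [Finset.sum_Ico_eq_sum_range, Nat.add_sub_cancel_left]
    have h1 : ∑ i ∈ range X, F (X0 + i) = ∑ i ∈ range (Q * k + R), F (i + X0) := by
      rw [hX]
      exact Finset.sum_congr rfl fun i _ => by rw [add_comm]
    have h2 : ∑ x ∈ range R, F (Q * k + x + X0) = ∑ x ∈ range R, F (x + X0) :=
      Finset.sum_congr rfl fun x _ => by rw [add_assoc, per_mul h]
    have h3 : (X : ℝ) = Q * k + R := by exact_mod_cast hX.symm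
    rw [h1, Finset.sum_range_add, per_full h, h2, h3]
    field_simp
    ring
  have hfrac0 : 0 ≤ (R : ℝ) / Q := by positivity
  have hfrac1 : (R : ℝ) / Q ≤ 1 := by
    rw [div_le_one hQ']
    exact hR'.le
  have hsub : range R ⊆ range Q := Finset.range_subset_range.2 hR.le
  refine ⟨?_, fun h0 => ?_, per_shift h⟩
  · rw [hsum]
    have h1 : |∑ y ∈ range R, F (y + X0)| ≤ ∑ y ∈ range Q, |F y| := by
      refine (Finset.abs_sum_le_sum_abs _ _).trans ?_
      have h4 : ∑ y ∈ range Q, |F (y + X0)| = ∑ y ∈ range Q, |F y| :=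
        per_shift (F := fun n => |F n|) habs X0
      rw [← h4]
      exact Finset.sum_le_sum_of_subset_of_nonneg hsub fun _ _ _ => abs_nonneg _
    have h2 : |(R : ℝ) / Q * ∑ y ∈ range Q, F y| ≤ ∑ y ∈ range Q, |F y| := by
      rw [abs_mul, abs_of_nonneg hfrac0]
      have h3 := Finset.abs_sum_le_sum_abs (fun y => F y) (range Q)
      have h4 : 0 ≤ |∑ y ∈ range Q, F y| := abs_nonneg _
      nlinarith
    have h3 := abs_sub (∑ y ∈ range R, F (y + X0)) ((R : ℝ) / Q * ∑ y ∈ range Q, F y)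
    linarith
  · rw [hsum]
    have h1 : 0 ≤ ∑ y ∈ range R, F (y + X0) := Finset.sum_nonneg fun y _ => h0 _
    have h2 : ∑ y ∈ range R, F (y + X0) ≤ ∑ y ∈ range Q, F y := by
      rw [← per_shift h X0]
      exact Finset.sum_le_sum_of_subset_of_nonneg hsub fun _ _ _ => h0 _
    have h3 : 0 ≤ ∑ y ∈ range Q, F y := Finset.sum_nonneg fun y _ => h0 _
    have h4 : 0 ≤ (R : ℝ) / Q * ∑ y ∈ range Q, F y := mul_nonneg hfrac0 h3
    have h5 : (R : ℝ) / Q * ∑ y ∈ range Q, F y ≤ ∑ y ∈ range Q, F y := by nlinarith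
    rw [abs_le]
    constructor <;> linarith

end Pool.Agent.H676R5.EP
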